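import Mathlib
import Pool.Agent.Lib.MP_3ee548_nt.RS.H89.Final

/-!
# Near-coincidences of sums of square roots modulo one

The bound for the counting function `A_{2r}(n, eta)` down to `eta = n^(-theta(r, k))` and the
corresponding bound for the moments of the sums `S(h, n)`.
-/

set_option autoImplicit false

open scoped BigOperators
open Classical

namespace Pool.Agent.Results.MP_3ee548_nt.SquareRootSums

/-- `e x = exp (2 pi i x)`. -/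
noncomputable def e (x : ℝ) : ℂ := Complex.exp (((2 * Real.pi * x : ℝ) : ℂ) * Complex.I)

/-- The integers in `[n/2, n]` (for `n ≥ 1`). -/
def I (n : ℕ) : Finset ℕ := (Finset.Icc 1 n).filter (fun m => n ≤ 2 * m)

/-- The vectors of length `r` with entries in `I n`. -/
def IV (r n : ℕ) : Finset (Fin r → ℕ) := Fintype.piFinset (fun _ => I n)

/-- The sum of the square roots of the entries. -/
noncomputable def sig (r : ℕ) (x : Fin r → ℕ) : ℝ := ∑ i, Real.sqrt (x i)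

/-- The counting function `A_{2r}(n, eta)` of the problem. -/
noncomputable def A (r n : ℕ) (η : ℝ) : ℕ :=
  ((IV r n ×ˢ IV r n).filter
    (fun p => |sig r p.1 - sig r p.2 - round (sig r p.1 - sig r p.2)| ≤ η)).card

/-- The moment `M_{2r}(H, n)` of the problem. -/
noncomputable def Mom (r : ℕ) (H : ℝ) (n : ℕ) : ℝ :=
  ∑ h ∈ Finset.Icc ⌈H / 2⌉ ⌊H⌋, ‖∑ m ∈ I n, e (h * Real.sqrt m)‖ ^ (2 * r)

/-- The exponent `theta(r, k)`. -/
noncomputable def theta (r k : ℕ) : ℝ :=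
  (3 * ((2 : ℝ) ^ (k - 1) - 1) + ((r : ℝ) - 2) * (2 * k - 1)) / (2 * ((2 : ℝ) ^ (k - 1) + r - 3))

theorem result (r k : ℕ) (hr : 2 ≤ r) (hk : 3 ≤ k) (ε : ℝ) (hε : 0 < ε) : ∃ C : ℝ, 0 < C ∧
    (∀ (n : ℕ) (η : ℝ), 1 ≤ n → 0 < η → η ≤ 1 / 2 →
      (A r n η : ℝ) ≤
        C * (n : ℝ) ^ ε * ((n : ℝ) ^ (2 * (r : ℝ) - theta r k) + (n : ℝ) ^ (2 * r) * η)) ∧
    (∀ (n : ℕ) (η : ℝ), 1 ≤ n → (n : ℝ) ^ (-theta r k) ≤ η → η ≤ 1 / 2 →
      (A r n η : ℝ) ≤ C * ((n : ℝ) ^ ((r : ℝ) + ε) + (n : ℝ) ^ (2 * (r : ℝ) + ε) * η)) ∧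
    (∀ (n : ℕ) (H : ℝ), 1 ≤ n → 1 ≤ H →
      Mom r H n ≤
        C * (n : ℝ) ^ ε * (H * (n : ℝ) ^ (2 * (r : ℝ) - theta r k) + (n : ℝ) ^ (2 * r))) := by
  obtain ⟨C1, hC1, h1⟩ := Pool.Agent.Lib.MP_3ee548_nt.RS.H89.final_main r k hr hk ε hε
  obtain ⟨C2, hC2, h2⟩ := Pool.Agent.Lib.MP_3ee548_nt.RS.H89.final_mom r k hr hk ε hε
  have h1' : ∀ (n : ℕ) (η : ℝ), 1 ≤ n → 0 < η → η ≤ 1 / 2 →
      (A r n η : ℝ) ≤
        C1 * (n : ℝ) ^ ε * ((n : ℝ) ^ (2 * (r : ℝ) - theta r k) + (n : ℝ) ^ (2 * r) * η) := h1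
  have h2' : ∀ (n : ℕ) (H : ℝ), 1 ≤ n → 1 ≤ H →
      Mom r H n ≤
        C2 * (n : ℝ) ^ ε * (H * (n : ℝ) ^ (2 * (r : ℝ) - theta r k) + (n : ℝ) ^ (2 * r)) := h2
  refine ⟨2 * C1 + C2, by positivity, ?_, ?_, ?_⟩
  · intro n η hn hη0 hη
    refine (h1' n η hn hη0 hη).trans ?_
    have hn0 : (0 : ℝ) < n := by exact_mod_cast hn
    have : C1 ≤ 2 * C1 + C2 := by linarith
    gcongr
  · intro n η hn hη1 hη
    have hn0 : (0 : ℝ) < n := by exact_mod_cast hn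
    have hη0 : 0 < η := lt_of_lt_of_le (Real.rpow_pos_of_pos hn0 _) hη1
    refine (h1' n η hn hη0 hη).trans ?_
    have e1 : (n : ℝ) ^ (2 * (r : ℝ) - theta r k) = (n : ℝ) ^ (2 * r) * (n : ℝ) ^ (-theta r k) := by
      rw [← Real.rpow_natCast (n : ℝ) (2 * r), ← Real.rpow_add hn0]
      congr 1
      push_cast
      ring
    have e2 : (n : ℝ) ^ (2 * (r : ℝ) + ε) = (n : ℝ) ^ ε * (n : ℝ) ^ (2 * r) := by
      rw [← Real.rpow_natCast (n : ℝ) (2 * r), ← Real.rpow_add hn0]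
      congr 1
      push_cast
      ring
    have e3 : (n : ℝ) ^ (2 * r) * (n : ℝ) ^ (-theta r k) ≤ (n : ℝ) ^ (2 * r) * η := by gcongr
    have e4 : 0 ≤ (n : ℝ) ^ ((r : ℝ) + ε) := by positivity
    have e5 : 0 ≤ (n : ℝ) ^ ε * ((n : ℝ) ^ (2 * r) * η) := by positivity
    rw [e1, e2]
    calc C1 * (n : ℝ) ^ ε * ((n : ℝ) ^ (2 * r) * (n : ℝ) ^ (-theta r k) + (n : ℝ) ^ (2 * r) * η)
        ≤ C1 * (n : ℝ) ^ ε * ((n : ℝ) ^ (2 * r) * η + (n : ℝ) ^ (2 * r) * η) := by gcongr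
      _ = 2 * C1 * ((n : ℝ) ^ ε * ((n : ℝ) ^ (2 * r) * η)) := by ring
      _ ≤ (2 * C1 + C2) * ((n : ℝ) ^ ε * ((n : ℝ) ^ (2 * r) * η)) := by
        apply mul_le_mul_of_nonneg_right _ e5
        linarith
      _ ≤ _ := by
        apply mul_le_mul_of_nonneg_left _ (by positivity)
        linarith
  · intro n H hn hH
    refine (h2' n H hn hH).trans ?_
    have hn0 : (0 : ℝ) < n := by exact_mod_cast hn
    have : C2 ≤ 2 * C1 + C2 := by linarith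
    gcongr

end Pool.Agent.Results.MP_3ee548_nt.SquareRootSums
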